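import Mathlib

/-! # The Kantorovich lemma for odd functions

Let `X` be a pseudo-metric space with an isometric involution `τ` moving every point by at least
`L`.  For an odd number of points `z i` there is one odd 1-Lipschitz function `θ` with
`L / 2 ≤ ∑ i, θ (z i)`. -/

namespace FAC
namespace Kant

open Finset

section Assignment

variable {ι : Type*} [Fintype ι] [Nonempty ι]

/-- The row minimum of `w j + c i j`. -/
noncomputable def rowMin (c : ι → ι → ℝ) (w : ι → ℝ) (i : ι) : ℝ :=
  Finset.univ.inf' Finset.univ_nonempty (fun j => w j + c i j)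

theorem rowMin_le (c : ι → ι → ℝ) (w : ι → ℝ) (i j : ι) : rowMin c w i ≤ w j + c i j :=
  Finset.inf'_le _ (Finset.mem_univ j)

theorem le_rowMin {c : ι → ι → ℝ} {w : ι → ℝ} {i : ι} {a : ℝ} (h : ∀ j, a ≤ w j + c i j) :
    a ≤ rowMin c w i :=
  Finset.le_inf' _ _ (fun j _ => h j)

theorem exists_rowMin (c : ι → ι → ℝ) (w : ι → ℝ) (i : ι) : ∃ j, rowMin c w i = w j + c i j := by
  obtain ⟨j, -, hj⟩ := Finset.exists_mem_eq_inf' (Finset.univ_nonempty (α := ι))
    (fun j => w j + c i j)
  exact ⟨j, hj⟩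

/-- The dual objective. -/
noncomputable def dual (c : ι → ι → ℝ) (w : ι → ℝ) : ℝ := (∑ i, rowMin c w i) - ∑ j, w j

theorem continuous_dual (c : ι → ι → ℝ) : Continuous (dual c) := by
  unfold dual rowMin
  refine Continuous.sub ?_ ?_
  · refine continuous_finsetSum _ (fun i _ => ?_)
    refine Continuous.finset_inf'_apply _ (fun j _ => ?_)
    exact (continuous_apply j).add continuous_const
  · exact continuous_finsetSum _ (fun j _ => continuous_apply j)

theorem dual_add_const (c : ι → ι → ℝ) (w : ι → ℝ) (s : ℝ) :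
    dual c (fun j => w j + s) = dual c w := by
  have h : ∀ i, rowMin c (fun j => w j + s) i = rowMin c w i + s := by
    intro i
    apply le_antisymm
    · obtain ⟨j, hj⟩ := exists_rowMin c w i
      rw [hj]
      have := rowMin_le c (fun j => w j + s) i j
      linarith
    · apply le_rowMin
      intro j
      have := rowMin_le c w i j
      linarith
  unfold dual
  rw [Finset.sum_congr rfl (fun i _ => h i), Finset.sum_add_distrib, Finset.sum_add_distrib]
  ring

/-- The dual objective has a global maximiser. -/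
theorem exists_max_dual (c : ι → ι → ℝ) (hc : ∀ i j, 0 ≤ c i j) :
    ∃ w : ι → ℝ, ∀ w' : ι → ℝ, dual c w' ≤ dual c w := by
  classical
  obtain ⟨C, hC⟩ : ∃ C : ℝ, ∀ i j, c i j ≤ C := by
    refine ⟨∑ i, ∑ j, c i j, fun i j => ?_⟩
    calc c i j ≤ ∑ j, c i j := Finset.single_le_sum (fun j _ => hc i j) (Finset.mem_univ j)
      _ ≤ ∑ i, ∑ j, c i j :=
        Finset.single_le_sum (f := fun i => ∑ j, c i j)
          (fun i _ => Finset.sum_nonneg (fun j _ => hc i j)) (Finset.mem_univ i)
  have hC0 : 0 ≤ C := by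
    obtain ⟨i⟩ := (inferInstance : Nonempty ι)
    exact (hc i i).trans (hC i i)
  have hcomp : IsCompact (Set.univ.pi (fun _ : ι => Set.Icc (0 : ℝ) C)) :=
    isCompact_univ_pi (fun _ => isCompact_Icc)
  have hne : (Set.univ.pi (fun _ : ι => Set.Icc (0 : ℝ) C)).Nonempty :=
    ⟨fun _ => 0, fun _ _ => ⟨le_rfl, hC0⟩⟩
  obtain ⟨w, hw, hmax⟩ := hcomp.exists_isMaxOn hne (continuous_dual c).continuousOn
  refine ⟨w, fun v => ?_⟩
  -- truncate and translate `v` into the box
  obtain ⟨j0, -, hj0⟩ := Finset.exists_min_image (Finset.univ : Finset ι) v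
    Finset.univ_nonempty
  set v' : ι → ℝ := fun j => min (v j) (v j0 + C) with hv'
  have h1 : dual c v ≤ dual c v' := by
    have hrow : ∀ i, rowMin c v i ≤ rowMin c v' i := by
      intro i
      apply le_rowMin
      intro j
      rcases le_total (v j) (v j0 + C) with h | h
      · rw [hv']; simp only [min_eq_left h]
        exact rowMin_le c v i j
      · rw [hv']; simp only [min_eq_right h]
        have h2 := rowMin_le c v i j0
        have h3 := hC i j0
        have h4 := hc i j
        linarith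
    have hsum : ∑ j, v' j ≤ ∑ j, v j :=
      Finset.sum_le_sum (fun j _ => min_le_left _ _)
    have hsum2 : ∑ i, rowMin c v i ≤ ∑ i, rowMin c v' i :=
      Finset.sum_le_sum (fun i _ => hrow i)
    unfold dual
    linarith
  have h2 : dual c v' = dual c (fun j => v' j + (- v j0)) := (dual_add_const c v' _).symm
  have h3 : (fun j => v' j + (- v j0)) ∈ Set.univ.pi (fun _ : ι => Set.Icc (0 : ℝ) C) := by
    intro j _
    have ha : v j0 ≤ v j := hj0 j (Finset.mem_univ j)
    constructor
    · have : v j0 ≤ v' j := le_min ha (by linarith)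
      simp only
      linarith
    · have : v' j ≤ v j0 + C := min_le_right _ _
      simp only
      linarith
  have h4 := hmax h3
  have h5 : dual c (fun j => v' j + (- v j0)) ≤ dual c w := h4
  linarith

theorem exists_pos_lower {α : Type*} (s : Finset α) (f : α → ℝ) (hf : ∀ x ∈ s, 0 < f x) :
    ∃ δ : ℝ, 0 < δ ∧ ∀ x ∈ s, δ ≤ f x := by
  rcases s.eq_empty_or_nonempty with h | h
  · subst h
    exact ⟨1, one_pos, fun x hx => absurd hx (Finset.notMem_empty x)⟩
  · obtain ⟨x, hx, hmin⟩ := Finset.exists_min_image s f h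
    exact ⟨f x, hf x hx, hmin⟩

/-- Duality for the assignment problem: potentials and an optimal permutation. -/
theorem exists_potential (c : ι → ι → ℝ) (hc : ∀ i j, 0 ≤ c i j) :
    ∃ (w : ι → ℝ) (σ : Equiv.Perm ι), ∀ i j, w (σ i) + c i (σ i) ≤ w j + c i j := by
  classical
  obtain ⟨w, hmax⟩ := exists_max_dual c hc
  set t : ι → Finset ι := fun i => Finset.univ.filter (fun j => w j + c i j = rowMin c w i)
    with ht
  have hall : ∀ s : Finset ι, s.card ≤ (s.biUnion t).card := by
    intro s
    by_contra hlt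
    push Not at hlt
    obtain ⟨δ, hδ, hle⟩ := exists_pos_lower (s ×ˢ (Finset.univ \ s.biUnion t))
      (fun p => w p.2 + c p.1 p.2 - rowMin c w p.1) (by
        rintro ⟨i, j⟩ hp
        rw [Finset.mem_product, Finset.mem_sdiff] at hp
        obtain ⟨hi, -, hj⟩ := hp
        have h1 := rowMin_le c w i j
        have h2 : w j + c i j ≠ rowMin c w i := by
          intro h
          apply hj
          rw [Finset.mem_biUnion]
          exact ⟨i, hi, by rw [ht]; simp only [Finset.mem_filter, Finset.mem_univ, true_and]; exact h⟩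
        have h3 : rowMin c w i < w j + c i j := lt_of_le_of_ne h1 (Ne.symm h2)
        simp only
        linarith)
    set w' : ι → ℝ := fun j => w j + (if j ∈ s.biUnion t then δ else 0) with hw'
    have hrow : ∀ i, rowMin c w i + (if i ∈ s then δ else 0) ≤ rowMin c w' i := by
      intro i
      apply le_rowMin
      intro j
      have h1 := rowMin_le c w i j
      by_cases hi : i ∈ s
      · by_cases hj : j ∈ s.biUnion t
        · rw [hw']; simp only [hi, hj, if_true]
          linarith
        · rw [hw']; simp only [hi, hj, if_true, if_false]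
          have := hle (i, j) (by
            rw [Finset.mem_product, Finset.mem_sdiff]
            exact ⟨hi, Finset.mem_univ j, hj⟩)
          simp only at this
          linarith
      · rw [hw']; simp only [hi, if_false]
        have : (0 : ℝ) ≤ (if j ∈ s.biUnion t then δ else 0) := by
          split_ifs <;> linarith
        linarith
    have h1 : ∑ i, (rowMin c w i + (if i ∈ s then δ else 0)) ≤ ∑ i, rowMin c w' i :=
      Finset.sum_le_sum (fun i _ => hrow i)
    have h2 : ∑ i, (if i ∈ s then δ else 0) = s.card * δ := by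
      rw [← Finset.sum_filter]
      simp
    have h3 : ∑ j, w' j = ∑ j, w j + (s.biUnion t).card * δ := by
      rw [hw', Finset.sum_add_distrib, ← Finset.sum_filter, Finset.filter_univ_mem,
        Finset.sum_const, nsmul_eq_mul]
    have h4 := hmax w'
    unfold dual at h4
    rw [Finset.sum_add_distrib, h2] at h1
    rw [h3] at h4
    have h5 : ((s.biUnion t).card : ℝ) + 1 ≤ (s.card : ℝ) := by exact_mod_cast hlt
    nlinarith
  obtain ⟨f, hinj, hf⟩ := (Finset.all_card_le_biUnion_card_iff_exists_injective t).mp hall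
  have hbij : Function.Bijective f := Finite.injective_iff_bijective.mp hinj
  refine ⟨w, Equiv.ofBijective f hbij, fun i j => ?_⟩
  have h1 := hf i
  rw [ht] at h1
  simp only [Finset.mem_filter, Finset.mem_univ, true_and] at h1
  rw [Equiv.ofBijective_apply, h1]
  exact rowMin_le c w i j

end Assignment

section OddCycle

/-- A permutation of a finite set of odd size has a point of odd period. -/
theorem exists_odd_period {ι : Type*} [Fintype ι] (hodd : Odd (Fintype.card ι))
    (σ : Equiv.Perm ι) : ∃ i, Odd (Function.minimalPeriod σ i) := by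
  classical
  obtain ⟨a, m, hm, hord⟩ : ∃ a m : ℕ, Odd m ∧ orderOf σ = 2 ^ a * m := by
    obtain ⟨a, m, hm, h⟩ := Nat.exists_eq_two_pow_mul_odd (n := orderOf σ) (orderOf_pos σ).ne'
    exact ⟨a, m, hm, h⟩
  have hp : Fact (Nat.Prime 2) := ⟨Nat.prime_two⟩
  have h1 : ((σ ^ m : Equiv.Perm ι) : ι → ι) = ((σ : ι → ι)^[m]) := Equiv.Perm.coe_pow σ m |>.trans rfl
  have h2 : ((σ ^ m) ^ 2 ^ a : Equiv.Perm ι) = 1 := by
    rw [← pow_mul, mul_comm, ← hord, pow_orderOf_eq_one]
  obtain ⟨i, hi⟩ : ∃ i, (σ ^ m) i = i := by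
    have hcard := Equiv.Perm.card_fixedPoints_modEq (α := ι)
      (f := ((σ ^ m : Equiv.Perm ι) : ι → ι)) (p := 2) (n := a) (by
        have := congrArg (fun e : Equiv.Perm ι => (e : ι → ι)) h2
        simp only [Equiv.Perm.coe_pow, Equiv.Perm.coe_one] at this ⊢
        exact this)
    by_contra hne
    push Not at hne
    have : IsEmpty (Function.fixedPoints ((σ ^ m : Equiv.Perm ι) : ι → ι)) :=
      ⟨fun x => hne x.1 x.2⟩
    rw [Fintype.card_eq_zero (α := Function.fixedPoints ((σ ^ m : Equiv.Perm ι) : ι → ι))] at hcard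
    rw [Nat.ModEq] at hcard
    rw [Nat.odd_iff] at hodd
    omega
  refine ⟨i, ?_⟩
  have hper : Function.IsPeriodicPt σ m i := by
    have : ((σ : ι → ι)^[m]) i = i := by
      rw [← h1]; exact hi
    exact this
  have hdvd := hper.minimalPeriod_dvd
  exact hm.of_dvd_nat hdvd

theorem cycle_cost {X ι : Type*} [PseudoMetricSpace X] [Fintype ι] (τ : X → X)
    (hτ : Isometry τ) (hinv : Function.Involutive τ) {L : ℝ} (hL : ∀ x, L ≤ dist x (τ x))
    (z : ι → X) (hodd : Odd (Fintype.card ι)) (σ : Equiv.Perm ι) :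
    L ≤ ∑ i, dist (z i) (τ (z (σ i))) := by
  classical
  obtain ⟨i, hi⟩ := exists_odd_period hodd σ
  set k := Function.minimalPeriod σ i with hk
  set F : ι → ℝ := fun i => dist (z i) (τ (z (σ i))) with hF
  have hinj : Set.InjOn (fun t : ℕ => ((σ : ι → ι)^[t]) i) (Finset.range k : Set ℕ) := by
    intro a ha b hb hab
    rw [Finset.mem_coe, Finset.mem_range] at ha hb
    exact Function.iterate_injOn_Iio_minimalPeriod ha hb hab
  have h1 : ∑ t ∈ Finset.range k, F (((σ : ι → ι)^[t]) i) ≤ ∑ j, F j := by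
    rw [← Finset.sum_image (f := F) (g := fun t : ℕ => ((σ : ι → ι)^[t]) i) hinj]
    exact Finset.sum_le_univ_sum_of_nonneg (fun j => dist_nonneg)
  have h2 : ∀ t : ℕ, dist (τ^[t] (z (((σ : ι → ι)^[t]) i)))
      (τ^[t + 1] (z (((σ : ι → ι)^[t + 1]) i))) = F (((σ : ι → ι)^[t]) i) := by
    intro t
    rw [Function.iterate_succ_apply' (σ : ι → ι) t i, Function.iterate_succ_apply τ t]
    have hit : ∀ (n : ℕ) (x y : X), dist (τ^[n] x) (τ^[n] y) = dist x y := by
      intro n
      induction n with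
      | zero => intro x y; rfl
      | succ n ih =>
        intro x y
        rw [Function.iterate_succ_apply, Function.iterate_succ_apply, ih, hτ.dist_eq]
    rw [hit t]
  have h3 := dist_le_range_sum_dist (fun t : ℕ => τ^[t] (z (((σ : ι → ι)^[t]) i))) k
  rw [Finset.sum_congr rfl (fun t _ => h2 t)] at h3
  have h4 : ((σ : ι → ι)^[k]) i = i := Function.iterate_minimalPeriod
  simp only [Function.iterate_zero, id_eq] at h3
  rw [h4, hinv.iterate_odd hi] at h3
  exact (hL _).trans (h3.trans h1)

end OddCycle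

/-- **Kantorovich lemma.**  For an odd number of points `z i` there is an odd 1-Lipschitz function
`θ` with `L / 2 ≤ ∑ i, θ (z i)`. -/
theorem kantorovich_odd {X ι : Type*} [PseudoMetricSpace X] [Fintype ι] (τ : X → X)
    (hτ : Isometry τ) (hinv : Function.Involutive τ) {L : ℝ} (hL : ∀ x, L ≤ dist x (τ x))
    (z : ι → X) (hodd : Odd (Fintype.card ι)) :
    ∃ θ : X → ℝ, LipschitzWith 1 θ ∧ (∀ x, θ (τ x) = - θ x) ∧ L / 2 ≤ ∑ i, θ (z i) := by
  classical
  have hne : Nonempty ι := by
    rw [← Fintype.card_pos_iff]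
    exact hodd.pos
  obtain ⟨w, σ, hσ⟩ := exists_potential (fun i j => dist (z i) (τ (z j)))
    (fun i j => dist_nonneg)
  set g : X → ℝ := fun x => Finset.univ.inf' Finset.univ_nonempty
    (fun j => w j + dist x (τ (z j))) with hg
  have hg_le : ∀ x j, g x ≤ w j + dist x (τ (z j)) := fun x j =>
    Finset.inf'_le _ (Finset.mem_univ j)
  have hg_lip : ∀ x y, g x ≤ g y + dist x y := by
    intro x y
    obtain ⟨j, -, hj⟩ := Finset.exists_mem_eq_inf' (Finset.univ_nonempty (α := ι))
      (fun j => w j + dist y (τ (z j)))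
    have h1 := hg_le x j
    have h2 : g y = w j + dist y (τ (z j)) := hj
    have h3 := dist_triangle x y (τ (z j))
    linarith
  refine ⟨fun x => (g x - g (τ x)) / 2, ?_, ?_, ?_⟩
  · refine LipschitzWith.of_le_add (fun x y => ?_)
    have h1 := hg_lip x y
    have h2 := hg_lip (τ y) (τ x)
    rw [hτ.dist_eq, dist_comm y x] at h2
    linarith
  · intro x
    simp only [hinv x]
    ring
  · have h1 : ∀ i, w (σ i) + dist (z i) (τ (z (σ i))) ≤ g (z i) := fun i =>
      Finset.le_inf' _ _ (fun j _ => hσ i j)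
    have h2 : ∀ i, g (τ (z i)) ≤ w i := by
      intro i
      have := hg_le (τ (z i)) i
      rw [dist_self] at this
      linarith
    have h3 := cycle_cost τ hτ hinv hL z hodd σ
    have h4 : ∑ i, (w (σ i) + dist (z i) (τ (z (σ i)))) ≤ ∑ i, g (z i) :=
      Finset.sum_le_sum (fun i _ => h1 i)
    have h5 : ∑ i, g (τ (z i)) ≤ ∑ i, w i := Finset.sum_le_sum (fun i _ => h2 i)
    have h6 : ∑ i, w (σ i) = ∑ i, w i := Equiv.sum_comp σ w
    rw [Finset.sum_add_distrib, h6] at h4
    rw [← Finset.sum_div, Finset.sum_sub_distrib]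
    linarith

/-- Version with signs `ε i = ± 1`. -/
theorem kantorovich_odd_sign {X ι : Type*} [PseudoMetricSpace X] [Fintype ι] (τ : X → X)
    (hτ : Isometry τ) (hinv : Function.Involutive τ) {L : ℝ} (hL : ∀ x, L ≤ dist x (τ x))
    (z : ι → X) (ε : ι → ℤ) (hε : ∀ i, ε i = 1 ∨ ε i = -1) (hodd : Odd (Fintype.card ι)) :
    ∃ θ : X → ℝ, LipschitzWith 1 θ ∧ (∀ x, θ (τ x) = - θ x) ∧
      L / 2 ≤ ∑ i, (ε i : ℝ) * θ (z i) := by
  classical
  obtain ⟨θ, h1, h2, h3⟩ := kantorovich_odd τ hτ hinv hL
    (fun i => if ε i = 1 then z i else τ (z i)) hodd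
  refine ⟨θ, h1, h2, h3.trans (le_of_eq ?_)⟩
  refine Finset.sum_congr rfl (fun i _ => ?_)
  rcases hε i with h | h
  · rw [if_pos h, h]; simp
  · rw [if_neg (by rw [h]; decide), h, h2]; simp

/-- Version with integer multiplicities of odd total. -/
theorem kantorovich_odd_int {X ι : Type*} [PseudoMetricSpace X] [Fintype ι] (τ : X → X)
    (hτ : Isometry τ) (hinv : Function.Involutive τ) {L : ℝ} (hL : ∀ x, L ≤ dist x (τ x))
    (z : ι → X) (m : ι → ℤ) (hodd : Odd (∑ i, m i)) :
    ∃ θ : X → ℝ, LipschitzWith 1 θ ∧ (∀ x, θ (τ x) = - θ x) ∧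
      L / 2 ≤ ∑ i, (m i : ℝ) * θ (z i) := by
  classical
  have hcard : Odd (Fintype.card (Σ i : ι, Fin (m i).natAbs)) := by
    rw [Fintype.card_sigma]
    simp only [Fintype.card_fin]
    have h1 : ((∑ i, (m i).natAbs : ℕ) : ℤ) ≡ ∑ i, m i [ZMOD 2] := by
      rw [Nat.cast_sum]
      refine Int.ModEq.sum (fun i _ => ?_)
      rw [Int.ModEq]
      omega
    rw [← Int.odd_coe_nat] 
    rw [Int.odd_iff] at hodd ⊢
    rw [Int.ModEq] at h1
    omega
  obtain ⟨θ, h1, h2, h3⟩ := kantorovich_odd_sign τ hτ hinv hL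
    (fun p : Σ i : ι, Fin (m i).natAbs => z p.1)
    (fun p => if 0 ≤ m p.1 then 1 else -1) (fun p => by split_ifs <;> simp) hcard
  refine ⟨θ, h1, h2, h3.trans (le_of_eq ?_)⟩
  rw [Fintype.sum_sigma]
  refine Finset.sum_congr rfl (fun i _ => ?_)
  change (∑ _x : Fin (m i).natAbs, (((if 0 ≤ m i then 1 else -1 : ℤ) : ℤ) : ℝ) * θ (z i))
    = (m i : ℝ) * θ (z i)
  rw [Finset.sum_const, Finset.card_univ, Fintype.card_fin, nsmul_eq_mul, ← mul_assoc]
  congr 1
  by_cases h : 0 ≤ m i
  · rw [if_pos h]
    have : ((m i).natAbs : ℤ) = m i := Int.natAbs_of_nonneg h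
    have h' : (((m i).natAbs : ℤ) : ℝ) = (m i : ℝ) := by rw [this]
    rw [Int.cast_natCast] at h'
    rw [h']; simp
  · rw [if_neg h]
    have : ((m i).natAbs : ℤ) = - m i := Int.ofNat_natAbs_of_nonpos (by omega)
    have h' : (((m i).natAbs : ℤ) : ℝ) = ((- m i : ℤ) : ℝ) := by rw [this]
    rw [Int.cast_natCast] at h'
    rw [h']; push_cast; ring

end Kant
end FAC
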