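import Mathlib

/-! Kantorovich potentials of an odd divisor on a space with a free isometric involution. -/

namespace FACK

open Finset

section Price

variable {ι : Type*}

/-- cost of a walk -/
def cost (c : ι → ι → ℝ) : List ι → ℝ
  | [] => 0
  | [_] => 0
  | a :: b :: l => c a b + cost c (b :: l)

theorem cost_cons_cons (c : ι → ι → ℝ) (a b : ι) (l : List ι) :
    cost c (a :: b :: l) = c a b + cost c (b :: l) := rfl

theorem cost_append (c : ι → ι → ℝ) (l₁ l₂ : List ι) (a : ι) :
    cost c (l₁ ++ a :: l₂) = cost c (l₁ ++ [a]) + cost c (a :: l₂) := by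
  induction l₁ with
  | nil => simp [cost]
  | cons x l ih =>
    cases l with
    | nil => simp [cost]
    | cons y l =>
      simp only [List.cons_append, cost_cons_cons] at ih ⊢
      rw [ih]; ring

theorem cost_zip (c : ι → ι → ℝ) (l : List ι) (a b : ι) :
    cost c (a :: (l ++ [b])) = (List.zipWith c (a :: l) (l ++ [b])).sum := by
  induction l generalizing a with
  | nil => simp [cost]
  | cons x l ih =>
    have := ih x
    simp only [List.cons_append, cost_cons_cons, List.zipWith_cons_cons, List.sum_cons] at this ⊢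
    rw [this]

theorem map_formPerm [DecidableEq ι] (a : ι) (m : List ι) (hm : (a :: m).Nodup) :
    (a :: m).map (List.formPerm (a :: m)) = m ++ [a] := by
  have h1 : m ++ [a] = (a :: m).rotate 1 := by simp
  rw [h1]
  apply List.ext_getElem
  · simp
  · intro i h1 h2
    rw [List.getElem_map, List.formPerm_apply_getElem _ hm, List.getElem_rotate]

theorem zip_self_map (c : ι → ι → ℝ) (f : ι → ι) (l : List ι) :
    (List.zipWith c l (l.map f)).sum = (l.map (fun i => c i (f i))).sum := by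
  induction l with
  | nil => simp
  | cons x l ih => simp only [List.map_cons, List.zipWith_cons_cons, List.sum_cons, ih]

theorem cycle_nonneg [Fintype ι] [DecidableEq ι] (c : ι → ι → ℝ) (h0 : ∀ i, c i i = 0)
    (hσ : ∀ σ : Equiv.Perm ι, 0 ≤ ∑ i, c i (σ i)) (a : ι) (m : List ι) (hm : (a :: m).Nodup) :
    0 ≤ cost c (a :: (m ++ [a])) := by
  have h1 := hσ (List.formPerm (a :: m))
  have h2 : ∑ i, c i ((List.formPerm (a :: m)) i)
      = ∑ i ∈ (a :: m).toFinset, c i ((List.formPerm (a :: m)) i) := by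
    symm
    apply Finset.sum_subset (Finset.subset_univ _)
    intro x _ hx
    rw [List.mem_toFinset] at hx
    rw [List.formPerm_apply_of_notMem hx, h0]
  rw [h2, List.sum_toFinset _ hm, ← zip_self_map, map_formPerm a m hm, ← cost_zip] at h1
  exact h1

/-- potentials exist if there is no negative cycle -/
theorem exists_price [Fintype ι] [DecidableEq ι] (c : ι → ι → ℝ) (h0 : ∀ i, c i i = 0)
    (hσ : ∀ σ : Equiv.Perm ι, 0 ≤ ∑ i, c i (σ i)) :
    ∃ w : ι → ℝ, ∀ i j, w i ≤ c i j + w j := by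
  classical
  have key : ∀ i : ι, ∃ l : List ι, (i :: l).Nodup ∧
      ∀ l' : List ι, (i :: l').Nodup → cost c (i :: l) ≤ cost c (i :: l') := by
    intro i
    let S : Finset {l : List ι // l.Nodup} := Finset.univ.filter (fun l => i ∉ l.1)
    have hne : S.Nonempty := ⟨⟨[], List.nodup_nil⟩, by simp [S]⟩
    obtain ⟨l, hl, hmin⟩ := Finset.exists_min_image S (fun l => cost c (i :: l.1)) hne
    refine ⟨l.1, ?_, ?_⟩
    · rw [List.nodup_cons]
      exact ⟨by simpa [S] using hl, l.2⟩
    · intro l' hl'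
      rw [List.nodup_cons] at hl'
      exact hmin ⟨l', hl'.2⟩ (by simp [S, hl'.1])
  choose L hL hLmin using key
  refine ⟨fun i => cost c (i :: L i), ?_⟩
  intro i j
  show cost c (i :: L i) ≤ c i j + cost c (j :: L j)
  by_cases hij : i = j
  · subst hij; rw [h0]; simp
  by_cases hi : i ∈ L j
  · obtain ⟨l₁, l₂, hl⟩ := List.append_of_mem hi
    have hnd := hL j
    rw [hl] at hnd ⊢
    have h1 : cost c (j :: (l₁ ++ i :: l₂)) = cost c (j :: (l₁ ++ [i])) + cost c (i :: l₂) := by
      have := cost_append c (j :: l₁) l₂ i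
      simpa using this
    have h2 : cost c (i :: L i) ≤ cost c (i :: l₂) := by
      apply hLmin
      rw [List.nodup_cons] at hnd
      exact (List.nodup_append.1 hnd.2).2.1
    have h3 : 0 ≤ cost c (i :: ((j :: l₁) ++ [i])) := by
      apply cycle_nonneg c h0 hσ
      rw [List.nodup_cons] at hnd ⊢
      obtain ⟨hj, hnd⟩ := hnd
      rw [List.nodup_append] at hnd
      refine ⟨?_, ?_⟩
      · intro h
        rcases List.mem_cons.1 h with h | h
        · exact hij h
        · exact hnd.2.2 i h i (by simp) rfl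
      · rw [List.nodup_cons]
        refine ⟨fun h => hj (by simp [h]), hnd.1⟩
    have h4 : cost c (i :: ((j :: l₁) ++ [i])) = c i j + cost c (j :: (l₁ ++ [i])) := rfl
    rw [h1]; linarith
  · have h1 : (i :: j :: L j).Nodup := by
      rw [List.nodup_cons]
      refine ⟨?_, hL j⟩
      intro h
      rcases List.mem_cons.1 h with h | h
      · exact hij h
      · exact hi h
    exact hLmin i _ h1

end Price

section Metric

variable {X : Type*}

/-- Kantorovich potential of an optimal matching -/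
theorem exists_potential {ι : Type*} [Fintype ι] [Nonempty ι] (D : X → X → ℝ)
    (hself : ∀ x, D x x = 0) (htri : ∀ x y z, D x z ≤ D x y + D y z)
    (a b : ι → X) (hopt : ∀ σ : Equiv.Perm ι, ∑ i, D (a i) (b i) ≤ ∑ i, D (a i) (b (σ i))) :
    ∃ θ : X → ℝ, (∀ x y, θ x - θ y ≤ D x y) ∧ ∀ i, θ (a i) - θ (b i) = D (a i) (b i) := by
  classical
  obtain ⟨w, hw⟩ := exists_price (fun i j => D (a i) (b j) - D (a i) (b i)) (by simp) (by
    intro σ
    rw [Finset.sum_sub_distrib]
    linarith [hopt σ])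
  have hlip : ∀ x y, (⨅ j, (w j + D x (b j))) - (⨅ j, (w j + D y (b j))) ≤ D x y := by
    intro x y
    rw [sub_le_iff_le_add']
    obtain ⟨j, hj⟩ := exists_eq_ciInf_of_finite (f := fun j => w j + D y (b j))
    rw [← hj]
    have h1 : (⨅ j, (w j + D x (b j))) ≤ w j + D x (b j) := ciInf_le (Set.finite_range _).bddBelow j
    linarith [htri x y (b j)]
  refine ⟨fun x => ⨅ j, (w j + D x (b j)), hlip, ?_⟩
  intro i
  apply le_antisymm (hlip _ _)
  have h1 : w i + D (a i) (b i) ≤ ⨅ j, (w j + D (a i) (b j)) := by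
    apply le_ciInf
    intro j
    have := hw i j
    linarith
  have h2 : (⨅ j, (w j + D (b i) (b j))) ≤ w i + D (b i) (b i) := ciInf_le (Set.finite_range _).bddBelow i
  rw [hself] at h2
  linarith

theorem chain_le {ι : Type*} (D : X → X → ℝ) (hself : ∀ x, D x x = 0)
    (htri : ∀ x y z, D x z ≤ D x y + D y z)
    (τ : X → X) (hiso : ∀ x y, D (τ x) (τ y) = D x y)
    (P : ι → X) (σ : ι → ι) (i : ι) (k : ℕ) :
    D (P i) (τ^[k] (P (σ^[k] i))) ≤ ∑ l ∈ range k, D (P (σ^[l] i)) (τ (P (σ (σ^[l] i)))) := by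
  induction k with
  | zero => simp [hself]
  | succ k ih =>
    rw [Finset.sum_range_succ]
    have hisok : ∀ k x y, D (τ^[k] x) (τ^[k] y) = D x y := by
      intro k
      induction k with
      | zero => intro x y; rfl
      | succ k ih2 => intro x y; rw [Function.iterate_succ_apply', Function.iterate_succ_apply', hiso, ih2]
    have h1 := htri (P i) (τ^[k] (P (σ^[k] i))) (τ^[k+1] (P (σ^[k+1] i)))
    have h2 : D (τ^[k] (P (σ^[k] i))) (τ^[k+1] (P (σ^[k+1] i))) = D (P (σ^[k] i)) (τ (P (σ (σ^[k] i)))) := by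
      rw [Function.iterate_succ_apply, hisok, Function.iterate_succ_apply']
    linarith

/-- an odd number of points: every matching of `P` with `τ P` costs at least `c` -/
theorem matching_cost {ι : Type*} [Fintype ι] (hodd : Odd (Fintype.card ι)) (D : X → X → ℝ)
    (hnn : ∀ x y, 0 ≤ D x y) (hself : ∀ x, D x x = 0)
    (htri : ∀ x y z, D x z ≤ D x y + D y z)
    (τ : X → X) (hτ : ∀ x, τ (τ x) = x) (hiso : ∀ x y, D (τ x) (τ y) = D x y)
    (c : ℝ) (hc : ∀ x, c ≤ D x (τ x)) (P : ι → X) (σ : Equiv.Perm ι) :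
    c ≤ ∑ i, D (P i) (τ (P (σ i))) := by
  classical
  -- a point with odd period
  have hord : 0 < orderOf σ := orderOf_pos σ
  obtain ⟨a, b, hb, hab⟩ : ∃ a b, Odd b ∧ orderOf σ = 2 ^ a * b := by
    obtain ⟨a, b, hb, hab⟩ := Nat.exists_eq_two_pow_mul_odd hord.ne'
    exact ⟨a, b, hb, hab⟩
  have h2 : (σ ^ b) ^ 2 ^ a = 1 := by
    rw [← pow_mul, mul_comm, ← hab, pow_orderOf_eq_one]
  have : Fact (Nat.Prime 2) := ⟨Nat.prime_two⟩
  obtain ⟨i, hi⟩ := Equiv.Perm.exists_fixed_point_of_prime (p := 2) (n := a)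
    (by intro h; exact (Nat.not_even_iff_odd.2 hodd) (even_iff_two_dvd.2 h)) h2
  have hper : Function.IsPeriodicPt σ b i := by
    unfold Function.IsPeriodicPt Function.IsFixedPt
    rw [Equiv.Perm.iterate_eq_pow]
    exact hi
  set k := Function.minimalPeriod σ i with hk
  have hkb : k ∣ b := hper.minimalPeriod_dvd
  have hkodd : Odd k := Odd.of_dvd_nat hb hkb
  have hiter : (σ^[k]) i = i := Function.iterate_minimalPeriod
  have h3 := chain_le D hself htri τ hiso P σ i k
  rw [hiter] at h3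
  have h4 : τ^[k] (P i) = τ (P i) := by
    obtain ⟨r, hr⟩ := hkodd
    have h2r : τ^[2] = id := by funext x; simp [hτ]
    rw [hr, Function.iterate_add_apply, Function.iterate_mul, h2r, Function.iterate_id]; rfl
  rw [h4] at h3
  have h5 : ∑ l ∈ range k, D (P (σ^[l] i)) (τ (P (σ (σ^[l] i)))) ≤ ∑ j, D (P j) (τ (P (σ j))) := by
    have hinj : Set.InjOn (fun l => σ^[l] i) (range k : Finset ℕ) := by
      intro x hx y hy hxy
      simp only [coe_range, Set.mem_Iio] at hx hy
      exact Function.iterate_injOn_Iio_minimalPeriod (by simpa using hx) (by simpa using hy) hxy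
    rw [← Finset.sum_image (f := fun j => D (P j) (τ (P (σ j)))) (g := fun l => σ^[l] i) hinj]
    apply Finset.sum_le_sum_of_subset_of_nonneg (Finset.subset_univ _)
    intro j _ _; exact hnn _ _
  linarith [hc (P i)]

/-- (K): an odd potential of an odd divisor -/
theorem kantorovich {ι : Type*} [Fintype ι] (hodd : Odd (Fintype.card ι)) (d : X → X → ℝ)
    (hself : ∀ x, d x x = 0) (hsymm : ∀ x y, d x y = d y x) (htri : ∀ x y z, d x z ≤ d x y + d y z)
    (τ : X → X) (hτ : ∀ x, τ (τ x) = x) (hiso : ∀ x y, d (τ x) (τ y) = d x y)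
    (c : ℝ) (hc0 : 0 ≤ c) (hc : ∀ x, c ≤ d x (τ x)) (P : ι → X) :
    ∃ θ : X → ℝ, (∀ x y, |θ x - θ y| ≤ d x y) ∧ (∀ x, θ (τ x) = -θ x) ∧ (∀ x, |θ x| ≤ c / 2) ∧
      c / 2 ≤ ∑ i, θ (P i) := by
  classical
  have hnn : ∀ x y, 0 ≤ d x y := by
    intro x y
    have := htri x y x
    rw [hself, hsymm y x] at this
    linarith
  let D : X → X → ℝ := fun x y => min (d x y) c
  have Dself : ∀ x, D x x = 0 := by intro x; simp [D, hself, hc0]
  have Dsymm : ∀ x y, D x y = D y x := by intro x y; simp [D, hsymm x y]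
  have Dnn : ∀ x y, 0 ≤ D x y := fun x y => le_min (hnn x y) hc0
  have Dtri : ∀ x y z, D x z ≤ D x y + D y z := by
    intro x y z
    show min (d x z) c ≤ min (d x y) c + min (d y z) c
    rcases le_total (d x y) c with h1 | h1 <;> rcases le_total (d y z) c with h2 | h2
    · rw [min_eq_left h1, min_eq_left h2]; exact (min_le_left _ _).trans (htri x y z)
    · rw [min_eq_left h1, min_eq_right h2]; linarith [min_le_right (d x z) c, hnn x y]
    · rw [min_eq_right h1, min_eq_left h2]; linarith [min_le_right (d x z) c, hnn y z]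
    · rw [min_eq_right h1, min_eq_right h2]; linarith [min_le_right (d x z) c]
  have Diso : ∀ x y, D (τ x) (τ y) = D x y := by intro x y; simp [D, hiso x y]
  have Dc : ∀ x, c ≤ D x (τ x) := fun x => le_min (hc x) le_rfl
  have : Nonempty ι := by
    rw [← Fintype.card_pos_iff]; exact hodd.pos
  obtain ⟨σ₀, -, hσ₀⟩ := Finset.exists_min_image (Finset.univ : Finset (Equiv.Perm ι))
    (fun σ => ∑ i, D (P i) (τ (P (σ i)))) Finset.univ_nonempty
  obtain ⟨θ, hlip, heq⟩ := exists_potential D Dself Dtri P (fun i => τ (P (σ₀ i))) (by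
    intro σ
    exact hσ₀ (σ₀ * σ) (Finset.mem_univ _))
  have habs : ∀ x y, |θ x - θ y| ≤ D x y := by
    intro x y
    rw [abs_le]
    constructor
    · have := hlip y x
      rw [Dsymm] at this
      linarith
    · exact hlip x y
  refine ⟨fun x => (θ x - θ (τ x)) / 2, ?_, ?_, ?_, ?_⟩
  · intro x y
    have h1 := habs x y
    have h2 := habs (τ x) (τ y)
    rw [Diso] at h2
    have h3 : D x y ≤ d x y := min_le_left _ _
    rw [abs_le] at h1 h2 ⊢
    constructor <;> linarith [h1.1, h1.2, h2.1, h2.2]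
  · intro x
    show (θ (τ x) - θ (τ (τ x))) / 2 = -((θ x - θ (τ x)) / 2)
    rw [hτ]; ring
  · intro x
    have h1 := habs x (τ x)
    have h3 : D x (τ x) ≤ c := min_le_right _ _
    show |(θ x - θ (τ x)) / 2| ≤ c / 2
    rw [abs_div, abs_two]
    linarith
  · have h1 := matching_cost hodd D Dnn Dself Dtri τ hτ Diso c Dc P σ₀
    have h2 : ∑ i, D (P i) (τ (P (σ₀ i))) = ∑ i, (θ (P i) - θ (τ (P (σ₀ i)))) :=
      Finset.sum_congr rfl (fun i _ => (heq i).symm)
    rw [h2, Finset.sum_sub_distrib, Equiv.sum_comp σ₀ (fun i => θ (τ (P i)))] at h1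
    have h3 : ∑ i, (θ (P i) - θ (τ (P i))) / 2 = (∑ i, θ (P i) - ∑ i, θ (τ (P i))) / 2 := by
      rw [← Finset.sum_sub_distrib, Finset.sum_div]
    rw [h3]
    linarith

/-- (K), signed form: points with signs `±1`, an odd number of them -/
theorem kantorovich_signed {ι : Type*} [Fintype ι] (hodd : Odd (Fintype.card ι)) (d : X → X → ℝ)
    (hself : ∀ x, d x x = 0) (hsymm : ∀ x y, d x y = d y x) (htri : ∀ x y z, d x z ≤ d x y + d y z)
    (τ : X → X) (hτ : ∀ x, τ (τ x) = x) (hiso : ∀ x y, d (τ x) (τ y) = d x y)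
    (c : ℝ) (hc0 : 0 ≤ c) (hc : ∀ x, c ≤ d x (τ x)) (P : ι → X) (ε : ι → ℝ)
    (hε : ∀ i, ε i = 1 ∨ ε i = -1) :
    ∃ θ : X → ℝ, (∀ x y, |θ x - θ y| ≤ d x y) ∧ (∀ x, θ (τ x) = -θ x) ∧ (∀ x, |θ x| ≤ c / 2) ∧
      c / 2 ≤ ∑ i, ε i * θ (P i) := by
  classical
  obtain ⟨θ, h1, h2, h3, h4⟩ := kantorovich hodd d hself hsymm htri τ hτ hiso c hc0 hc
    (fun i => if ε i = 1 then P i else τ (P i))
  refine ⟨θ, h1, h2, h3, h4.trans (le_of_eq ?_)⟩
  apply Finset.sum_congr rfl
  intro i _
  rcases hε i with h | h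
  · simp [h]
  · have : ¬ ((-1 : ℝ) = 1) := by norm_num
    simp [h, this, h2]

end Metric

end FACK
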